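import Pool.Agent.H48.ER2.Top
import Pool.Agent.H66.ER2.Targets

/-!
# MP_816b90_co: contraction of an even pair stays in the class (row CC)
-/

set_option autoImplicit false

namespace Pool.Agent.H4.ER2

open Pool.Agent.H48.ER Pool.Agent.H52.ER2 Pool.Agent.H66.ER2 Pool.Agent.H48.ER2

/-- an edge is a path -/
theorem ip_edge {V : Type} {H : SimpleGraph V} {p q : V} (h : H.Adj p q) :
    IP H 1 p q {p, q} := by
  refine ⟨fun i => if i = 0 then p else q, by simp, by simp, ?_, ?_, ?_⟩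
  · intro i j hi hj e
    interval_cases i <;> interval_cases j <;> simp at e ⊢
    · exact h.ne e
    · exact h.ne e.symm
  · intro i j hi hj
    interval_cases i <;> interval_cases j <;> simp
    · exact h
    · exact h.symm
  · ext w
    constructor
    · rintro (rfl | rfl)
      · exact ⟨0, by omega, by simp⟩
      · exact ⟨1, by omega, by simp⟩
    · rintro ⟨i, hi, rfl⟩
      interval_cases i
      · left; simp
      · right; simp

/-- the table of an antihole -/
theorem tab {V : Type} {H : SimpleGraph V} {n : ℕ} {g : ℕ → V} {c : V} {R : Set V}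
    (hinj : ∀ i j, i ≤ n → j ≤ n → g i = g j → i = j)
    (hadj : ∀ i j, i ≤ n → j ≤ n → (Hᶜ.Adj (g i) (g j) ↔ i + 1 = j ∨ j + 1 = i))
    (hR : R = {v | ∃ i, i ≤ n ∧ g i = v}) (hc : c ∉ R) (h0 : Hᶜ.Adj c (g 0))
    (hn : Hᶜ.Adj c (g n)) (hall : ∀ w ∈ R, Hᶜ.Adj c w → w = g 0 ∨ w = g n) :
    (∀ i j, i ≤ n → j ≤ n → (H.Adj (g i) (g j) ↔ i ≠ j ∧ ¬ (i + 1 = j ∨ j + 1 = i))) ∧
    (∀ i, i ≤ n → (H.Adj c (g i) ↔ i ≠ 0 ∧ i ≠ n)) ∧ ∀ i, i ≤ n → c ≠ g i := by
  have hne : ∀ i, i ≤ n → c ≠ g i := by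
    rintro i hi rfl
    exact hc (hR ▸ ⟨i, hi, rfl⟩)
  refine ⟨?_, ?_, hne⟩
  · intro i j hi hj
    have h := hadj i j hi hj
    rw [SimpleGraph.compl_adj] at h
    constructor
    · intro e
      refine ⟨?_, fun h' => (h.mpr h').2 e⟩
      rintro rfl
      exact H.loopless.irrefl _ e
    · rintro ⟨h1, h2⟩
      by_contra h3
      exact h2 (h.mp ⟨fun e => h1 (hinj i j hi hj e), h3⟩)
  · intro i hi
    constructor
    · intro e
      refine ⟨?_, ?_⟩
      · rintro rfl
        exact ((SimpleGraph.compl_adj _ _ _).mp h0).2 e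
      · rintro rfl
        exact ((SimpleGraph.compl_adj _ _ _).mp hn).2 e
    · rintro ⟨h1, h2⟩
      by_contra h3
      rcases hall (g i) (hR ▸ ⟨i, hi, rfl⟩) ((SimpleGraph.compl_adj _ _ _).mpr ⟨hne i hi, h3⟩)
        with h | h
      · exact h1 (hinj _ _ hi (by omega) h)
      · exact h2 (hinj _ _ hi le_rfl h)

/-- no antihole with five vertices -/
theorem na3 {V : Type} {H : SimpleGraph V} (hNOH : NOH H) {g : ℕ → V} {c : V}
    (hinj : ∀ i j, i ≤ 3 → j ≤ 3 → g i = g j → i = j)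
    (hA : ∀ i j, i ≤ 3 → j ≤ 3 → (H.Adj (g i) (g j) ↔ i ≠ j ∧ ¬ (i + 1 = j ∨ j + 1 = i)))
    (hC : ∀ i, i ≤ 3 → (H.Adj c (g i) ↔ i ≠ 0 ∧ i ≠ 3)) (hne : ∀ i, i ≤ 3 → c ≠ g i) :
    False := by
  have hs : ∃ s : ℕ → ℕ, s 0 = 1 ∧ s 1 = 3 ∧ s 2 = 0 ∧ s 3 = 2 :=
    ⟨fun i => if i = 0 then 1 else if i = 1 then 3 else if i = 2 then 0 else 2,
      by simp, by simp, by simp, by simp⟩
  obtain ⟨s, s0, s1, s2, s3⟩ := hs
  have hle : ∀ i, i ≤ 3 → s i ≤ 3 := by
    intro i hi
    interval_cases i <;> omega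
  have hip : IP H 3 (g 1) (g 2) {v | ∃ i, i ≤ 3 ∧ g (s i) = v} := by
    refine ⟨fun i => g (s i), by simp [s0], by simp [s3], ?_, ?_, rfl⟩
    · intro i j hi hj e
      have h := hinj _ _ (hle i hi) (hle j hj) e
      interval_cases i <;> interval_cases j <;> omega
    · intro i j hi hj
      show H.Adj (g (s i)) (g (s j)) ↔ _
      rw [hA _ _ (hle i hi) (hle j hj)]
      interval_cases i <;> interval_cases j <;> omega
  have h := hNOH 3 (g 1) (g 2) c _ hip (by norm_num) ?_ ?_ ?_ ?_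
  · exact absurd h (by decide)
  · rintro ⟨i, hi, e⟩
    exact hne _ (hle i hi) e.symm
  · exact (hC 1 (by norm_num)).mpr ⟨by norm_num, by norm_num⟩
  · exact (hC 2 (by norm_num)).mpr ⟨by norm_num, by norm_num⟩
  · rintro w ⟨i, hi, rfl⟩ hw
    have h := (hC _ (hle i hi)).mp hw
    interval_cases i
    · left; rw [s0]
    · rw [s1] at h; exact absurd rfl h.2
    · rw [s2] at h; exact absurd rfl h.1
    · right; rw [s3]

/-- no antihole with six vertices -/
theorem na4 {V : Type} {H : SimpleGraph V} (hNOP : NOP H) {g : ℕ → V} {c : V}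
    (hinj : ∀ i j, i ≤ 4 → j ≤ 4 → g i = g j → i = j)
    (hA : ∀ i j, i ≤ 4 → j ≤ 4 → (H.Adj (g i) (g j) ↔ i ≠ j ∧ ¬ (i + 1 = j ∨ j + 1 = i)))
    (hC : ∀ i, i ≤ 4 → (H.Adj c (g i) ↔ i ≠ 0 ∧ i ≠ 4)) (hne : ∀ i, i ≤ 4 → c ≠ g i) :
    False := by
  have c0 : ¬ H.Adj c (g 0) := by rw [hC 0 (by norm_num)]; norm_num
  have c1 : H.Adj c (g 1) := by rw [hC 1 (by norm_num)]; norm_num
  have c2 : H.Adj c (g 2) := by rw [hC 2 (by norm_num)]; norm_num
  have c3 : H.Adj c (g 3) := by rw [hC 3 (by norm_num)]; norm_num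
  have c4 : ¬ H.Adj c (g 4) := by rw [hC 4 (by norm_num)]; norm_num
  have a01 : ¬ H.Adj (g 0) (g 1) := by rw [hA 0 1 (by norm_num) (by norm_num)]; norm_num
  have a02 : H.Adj (g 0) (g 2) := by rw [hA 0 2 (by norm_num) (by norm_num)]; norm_num
  have a03 : H.Adj (g 0) (g 3) := by rw [hA 0 3 (by norm_num) (by norm_num)]; norm_num
  have a04 : H.Adj (g 0) (g 4) := by rw [hA 0 4 (by norm_num) (by norm_num)]; norm_num
  have a12 : ¬ H.Adj (g 1) (g 2) := by rw [hA 1 2 (by norm_num) (by norm_num)]; norm_num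
  have a13 : H.Adj (g 1) (g 3) := by rw [hA 1 3 (by norm_num) (by norm_num)]; norm_num
  have a14 : H.Adj (g 1) (g 4) := by rw [hA 1 4 (by norm_num) (by norm_num)]; norm_num
  have a23 : ¬ H.Adj (g 2) (g 3) := by rw [hA 2 3 (by norm_num) (by norm_num)]; norm_num
  have a24 : H.Adj (g 2) (g 4) := by rw [hA 2 4 (by norm_num) (by norm_num)]; norm_num
  have a34 : ¬ H.Adj (g 3) (g 4) := by rw [hA 3 4 (by norm_num) (by norm_num)]; norm_num
  have n01 : g 0 ≠ g 1 := fun e => by have := hinj 0 1 (by norm_num) (by norm_num) e; omega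
  have n02 : g 0 ≠ g 2 := fun e => by have := hinj 0 2 (by norm_num) (by norm_num) e; omega
  have n03 : g 0 ≠ g 3 := fun e => by have := hinj 0 3 (by norm_num) (by norm_num) e; omega
  have n04 : g 0 ≠ g 4 := fun e => by have := hinj 0 4 (by norm_num) (by norm_num) e; omega
  have n12 : g 1 ≠ g 2 := fun e => by have := hinj 1 2 (by norm_num) (by norm_num) e; omega
  have n13 : g 1 ≠ g 3 := fun e => by have := hinj 1 3 (by norm_num) (by norm_num) e; omega
  have n14 : g 1 ≠ g 4 := fun e => by have := hinj 1 4 (by norm_num) (by norm_num) e; omega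
  have n23 : g 2 ≠ g 3 := fun e => by have := hinj 2 3 (by norm_num) (by norm_num) e; omega
  have n24 : g 2 ≠ g 4 := fun e => by have := hinj 2 4 (by norm_num) (by norm_num) e; omega
  have n34 : g 3 ≠ g 4 := fun e => by have := hinj 3 4 (by norm_num) (by norm_num) e; omega
  have m0 := hne 0 (by norm_num)
  have m1 := hne 1 (by norm_num)
  have m2 := hne 2 (by norm_num)
  have m3 := hne 3 (by norm_num)
  have m4 := hne 4 (by norm_num)
  have c0' : ¬ H.Adj (g 0) c := fun h => c0 h.symm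
  have c4' : ¬ H.Adj (g 4) c := fun h => c4 h.symm
  have a01' : ¬ H.Adj (g 1) (g 0) := fun h => a01 h.symm
  have a12' : ¬ H.Adj (g 2) (g 1) := fun h => a12 h.symm
  have a23' : ¬ H.Adj (g 3) (g 2) := fun h => a23 h.symm
  have a34' : ¬ H.Adj (g 4) (g 3) := fun h => a34 h.symm
  generalize g 0 = g0 at *
  generalize g 1 = g1 at *
  generalize g 2 = g2 at *
  generalize g 3 = g3 at *
  generalize g 4 = g4 at *
  clear hinj hA hC hne
  have key : Prism H ![c, g1, g3] ![g2, g4, g0] ![1, 1, 1] ![{c, g2}, {g1, g4}, {g3, g0}] := by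
    refine ⟨?_, ?_, ?_, ?_⟩
    · intro i
      fin_cases i
      · exact ip_edge c2
      · exact ip_edge a14
      · exact ip_edge a03.symm
    · intro i
      fin_cases i <;> exact le_rfl
    · intro i j hij
      rw [Set.disjoint_left]
      fin_cases i <;> fin_cases j <;> simp at hij <;>
        simp [m0, m1, m2, m3, m4, n01, n02, n03, n04, n12, n13, n14, n23, n24, n34,
          m0.symm, m1.symm, m2.symm, m3.symm, m4.symm, n01.symm, n02.symm, n03.symm, n04.symm,
          n12.symm, n13.symm, n14.symm, n23.symm, n24.symm, n34.symm]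
    · intro i j hij u hu v hv
      fin_cases i <;> fin_cases j <;> simp at hij <;> simp at hu hv ⊢ <;>
        rcases hu with rfl | rfl <;> rcases hv with rfl | rfl <;>
        simp [m0, m1, m2, m3, m4, n01, n02, n03, n04, n12, n13, n14, n23, n24, n34,
          m0.symm, m1.symm, m2.symm, m3.symm, m4.symm, n01.symm, n02.symm, n03.symm, n04.symm,
          n12.symm, n13.symm, n14.symm, n23.symm, n24.symm, n34.symm,
          c0, c1, c2, c3, c4, a01, a02, a03, a04, a12, a13, a14, a23, a24, a34,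
          c1.symm, c2.symm, c3.symm, a02.symm, a03.symm, a04.symm, a13.symm, a14.symm, a24.symm,
          c0', c4', a01', a12', a23', a34']
  refine hNOP _ _ _ _ key ?_
  intro i
  fin_cases i <;> decide

/-- (NA5) short antiholes -/
theorem na5 {V : Type} (H : SimpleGraph V) (h1 : NOH H) (h2 : NOP H)
    (h5 : ∀ (n : ℕ) (u v c : V) (R : Set V), IP Hᶜ n u v R → 5 ≤ n → c ∉ R → Hᶜ.Adj c u →
      Hᶜ.Adj c v → ¬ ∀ w ∈ R, Hᶜ.Adj c w → w = u ∨ w = v) : NAH H := by
  intro n u v c R hip h3 hc hu hv hall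
  by_cases hn : 5 ≤ n
  · exact h5 n u v c R hip hn hc hu hv hall
  · obtain ⟨g, g0, gn, ginj, gadj, hR⟩ := hip
    subst g0 gn
    obtain ⟨t1, t2, t3⟩ := tab ginj gadj hR hc hu hv hall
    have h34 : n = 3 ∨ n = 4 := by omega
    rcases h34 with rfl | rfl
    · exact na3 h1 ginj t1 t2 t3
    · exact na4 h2 ginj t1 t2 t3

theorem pf_NA5 : T_NA5 := fun _ G h1 h2 h5 => na5 G h1 h2 h5

theorem pf_CC (hCNH : T_CNH) (hCNA : T_CNA) : T_CC := by
  intro V G x y hG hE hN
  have hH := hCNH V G x y hG.noh hE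
  exact ⟨hH, hN, na5 _ hH hN (hCNA V G x y hG hE)⟩

end Pool.Agent.H4.ER2
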