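import Pool.Agent.H56.ER2.Targets

/-!
# MP_816b90_co: union of connected sets (row CNU)
-/

set_option autoImplicit false

namespace Pool.Agent.H4.ER2

open Pool.Agent.H48.ER Pool.Agent.H52.ER2 Pool.Agent.H66.ER2 Pool.Agent.H56.ER2

theorem pf_CNU : T_CNU := by
  intro V G D E hD hE hDE X hX hne hcl
  obtain ⟨u, hu, w, hw, huw⟩ := hDE
  have hXD : (X ∩ D).Nonempty → D ⊆ X := by
    intro h
    have := hD (X ∩ D) Set.inter_subset_right h
      (fun a ha b hb hab => ⟨hcl a ha.1 b (Or.inl hb) hab, hb⟩)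
    intro a ha
    rw [← this] at ha
    exact ha.1
  have hXE : (X ∩ E).Nonempty → E ⊆ X := by
    intro h
    have := hE (X ∩ E) Set.inter_subset_right h
      (fun a ha b hb hab => ⟨hcl a ha.1 b (Or.inr hb) hab, hb⟩)
    intro a ha
    rw [← this] at ha
    exact ha.1
  have hor : D ⊆ X ∨ E ⊆ X := by
    obtain ⟨a, ha⟩ := hne
    rcases hX ha with h | h
    · exact Or.inl (hXD ⟨a, ha, h⟩)
    · exact Or.inr (hXE ⟨a, ha, h⟩)
  have hboth : D ⊆ X ∧ E ⊆ X := by
    rcases hor with h | h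
    · refine ⟨h, hXE ⟨w, ?_, hw⟩⟩
      rcases huw with rfl | huw
      · exact h hu
      · exact hcl u (h hu) w (Or.inr hw) huw
    · refine ⟨hXD ⟨u, ?_, hu⟩, h⟩
      rcases huw with rfl | huw
      · exact h hw
      · exact hcl w (h hw) u (Or.inl hu) huw.symm
  exact Set.Subset.antisymm hX (Set.union_subset hboth.1 hboth.2)

end Pool.Agent.H4.ER2
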